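import Mathlib
import Pool.Agent.X280.BP.GaussFam
import Pool.Agent.X280.BP.Six3

/-!
# The normal law of the products of Birch and Swinnerton-Dyer

For an elliptic curve `E` over `ℚ` let `P_E(y)` be the product of `N_p / p` over the primes `p ≤ y` of good reduction; the problem asks whether
`P_E(y) ~ A (log y)^r`, `r` the rank of `E(ℚ)`. Consider the families of elliptic curves with `0`, `1`, `2` and `6` marked points below, with
`r = 0, 1, 2, 6`, and choose the integer parameters at random in `[-H, H]`.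

The theorem: if `y` tends to infinity and `H` is larger than any power of `y`, the distribution of `log P_E(y)` is asymptotically the normal
distribution with mean value `(r + 1/2) log log y` and variance `log log y`. So on average over the family the exponent of `log y` is
`r + 1/2`: the prediction of the conjecture of Birch and Swinnerton-Dyer for a family with generic rank `r`, in which the rank is `r` for one
half of the curves and `r + 1` for the other half. (The mean of the trace of the Frobenius over the family is `-r + O(p^{-1/2})`; by the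
conjecture of Nagao this means that `r` is the generic rank of the family.)
-/

set_option autoImplicit false

open MeasureTheory ProbabilityTheory

namespace Pool.Agent.Results.MP_3283e1_nt.NormalLaw

/-- A family of elliptic curves over `ℚ` with equations `y² + a₁ x y + a₃ y = x³ + a₂ x² + a₄ x + a₆` over `ℤ`: the number of the integer
parameters, the member with given parameters, and the number of the marked points. -/
structure Family where
  /-- The number of parameters. -/
  n : ℕ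
  /-- The member with the parameters `c`. -/
  curve : (Fin n → ℤ) → WeierstrassCurve ℤ
  /-- The number of marked points. -/
  points : ℕ

/-- Four families, with `0`, `1`, `2` and `6` marked points: all curves `y² = x³ + c₀ x + c₁`; all curves with the point `(0, 0)`,
`y² + c₀ x y + c₂ y = x³ + c₁ x² + c₃ x`; the curves `y² + (c₀ x + c₁) y = x (x - 1) (x + c₂)` with the points `(0, 0)` and `(1, 0)`; the
Jacobians of the curves `y² = x (c₀ x + c₁)² + (x - 1) (x - 4) (x - 9) (x - 16)` with points above `x = 0, 1, 4, 9, 16` and two points above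
`x = ∞`. -/
def families : Fin 4 → Family := ![
  ⟨2, fun c => ⟨0, 0, 0, c 0, c 1⟩, 0⟩,
  ⟨4, fun c => ⟨c 0, c 1, c 2, c 3, 0⟩, 1⟩,
  ⟨3, fun c => ⟨c 0, c 2 - 1, c 1, -c 2, 0⟩, 2⟩,
  ⟨2, fun c => ⟨2 * (c 0 ^ 2 - 30), -2 * (8 * c 0 * c 1 + 1092 - (c 0 ^ 2 - 30) ^ 2),
    16 * (c 1 ^ 2 - 820) - 2 * (c 0 ^ 2 - 30) * (8 * c 0 * c 1 + 1092 - (c 0 ^ 2 - 30) ^ 2),
    (8 * c 0 * c 1 + 1092 - (c 0 ^ 2 - 30) ^ 2) ^ 2 - 36864, 0⟩, 6⟩]

/-- The number of points modulo `p`, with the point at infinity. -/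
noncomputable def numPoints (W : WeierstrassCurve ℤ) (p : ℕ) : ℕ :=
  Nat.card {q : ZMod p × ZMod p // q.2 ^ 2 + (W.a₁ : ZMod p) * q.1 * q.2 + (W.a₃ : ZMod p) * q.2 =
    q.1 ^ 3 + (W.a₂ : ZMod p) * q.1 ^ 2 + (W.a₄ : ZMod p) * q.1 + (W.a₆ : ZMod p)} + 1

open Classical in
/-- The product of `N_p / p` over the primes `p ≤ y` which do not divide `2 Δ`. -/
noncomputable def product (W : WeierstrassCurve ℤ) (y : ℕ) : ℝ :=
  ∏ p ∈ (Finset.range (y + 1)).filter (fun p : ℕ => p.Prime ∧ ¬ (p : ℤ) ∣ 2 * W.Δ), ((numPoints W p : ℝ) / p)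

theorem red0 : Pool.Agent.X280.BP.Red (fun c : Fin 2 → ℤ => (⟨0, 0, 0, c 0, c 1⟩ : WeierstrassCurve ℤ))
    (fun p (c : Fin 2 → ZMod p) => Pool.Agent.X280.BP.V0 c) := by
  refine ⟨fun c p => ?_⟩
  ext <;> simp [WeierstrassCurve.map, Pool.Agent.X280.BP.V0, Pool.Agent.Y722.HS.red]

theorem red1 : Pool.Agent.X280.BP.Red (fun c : Fin 4 → ℤ => (⟨c 0, c 1, c 2, c 3, 0⟩ : WeierstrassCurve ℤ))
    (fun p (c : Fin 4 → ZMod p) => Pool.Agent.X280.BP.V1 c) := by
  refine ⟨fun c p => ?_⟩
  ext <;> simp [WeierstrassCurve.map, Pool.Agent.X280.BP.V1, Pool.Agent.Y722.HS.red]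

theorem red2 : Pool.Agent.X280.BP.Red (fun c : Fin 3 → ℤ => (⟨c 0, c 2 - 1, c 1, -c 2, 0⟩ : WeierstrassCurve ℤ))
    (fun p (c : Fin 3 → ZMod p) => Pool.Agent.X280.BP.V2 c) := by
  refine ⟨fun c p => ?_⟩
  ext <;> simp [WeierstrassCurve.map, Pool.Agent.X280.BP.V2, Pool.Agent.Y722.HS.red]

theorem red6 : Pool.Agent.X280.BP.Red (fun c : Fin 2 → ℤ => Pool.Agent.X280.BP.V6 c)
    (fun p (c : Fin 2 → ZMod p) => Pool.Agent.X280.BP.V6 c) := by
  refine ⟨fun c p => ?_⟩
  ext <;> simp [WeierstrassCurve.map, Pool.Agent.X280.BP.V6, Pool.Agent.X280.BP.w6, Pool.Agent.X280.BP.G6,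
    Pool.Agent.Y722.HS.red]

theorem product_eq : product = Pool.Agent.X280.BP.bsd := by
  funext W y
  unfold product Pool.Agent.X280.BP.bsd
  refine Finset.prod_congr ?_ fun _ _ => rfl
  ext p
  simp only [Finset.mem_filter]
  rfl

theorem law_of {n : ℕ} {W : (Fin n → ℤ) → WeierstrassCurve ℤ} {V : ∀ p : ℕ, (Fin n → ZMod p) → WeierstrassCurve (ZMod p)}
    (h : Pool.Agent.X280.BP.Red W V) {r : ℕ} {C : ℝ}
    (D : Pool.Agent.X280.BP.Dat (Pool.Agent.X280.BP.trc V) (fun p c => (V p c).Δ ≠ 0) (r : ℝ) C) (u : ℝ) {ε : ℝ} (hε : 0 < ε) :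
    ∃ k y₀ : ℕ, ∀ y H : ℕ, y₀ ≤ y → y ^ k ≤ H →
      |({c : Fin n → ℤ | (∀ j, |c j| ≤ H) ∧ Real.log (product (W c) y) ≤
        ((r : ℝ) + 1 / 2) * Real.log (Real.log y) + u * √(Real.log (Real.log y))}.ncard : ℝ) /
        (2 * H + 1 : ℝ) ^ n - (gaussianReal 0 1).real (Set.Iic u)| ≤ ε := by
  have h1 := Pool.Agent.X280.BP.gauss_of h D u hε
  simp only [Fintype.card_fin] at h1
  rw [product_eq]
  exact h1

/-- **The normal law of the products of Birch and Swinnerton-Dyer.** -/
theorem result (i : Fin 4) (u : ℝ) (ε : ℝ) (hε : 0 < ε) :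
    ∃ k y₀ : ℕ, ∀ y H : ℕ, y₀ ≤ y → y ^ k ≤ H →
      |({c : Fin (families i).n → ℤ | (∀ j, |c j| ≤ H) ∧ Real.log (product ((families i).curve c) y) ≤
        ((families i).points + 1 / 2) * Real.log (Real.log y) + u * √(Real.log (Real.log y))}.ncard : ℝ) /
        (2 * H + 1 : ℝ) ^ (families i).n - (gaussianReal 0 1).real (Set.Iic u)| ≤ ε := by
  fin_cases i
  · exact law_of red0 (r := 0) (by rw [Nat.cast_zero]; exact Pool.Agent.X280.BP.dat0) u hε
  · exact law_of red1 (r := 1) (by rw [Nat.cast_one]; exact Pool.Agent.X280.BP.dat1) u hε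
  · exact law_of red2 (r := 2) (by rw [Nat.cast_ofNat]; exact Pool.Agent.X280.BP.dat2) u hε
  · exact law_of red6 (r := 6) (by rw [Nat.cast_ofNat]; exact Pool.Agent.X280.BP.dat6) u hε

end Pool.Agent.Results.MP_3283e1_nt.NormalLaw
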