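import Pool.Agent.N586.BP.Core
import Pool.Agent.TH941.Newform

/-!
# One-sided slow variation of the product of Birch and Swinnerton-Dyer

`E : y² = x³ + a x + b` is an elliptic curve over `ℚ`, `a, b ∈ ℤ`, `N_p` is the number of points modulo `p` (with
the point at infinity), `a_p = p + 1 - N_p` and `P(x) = ∏_{p ≤ x, p ∤ 2Δ} N_p / p`.  `F` is the entire
continuation of the incomplete `L`-series and `r = ord_{s=1} F`; `f` is the newform of `E`.

For every real number `ρ` (for instance the rank of `E(ℚ)`) the original conjecture of Birch and Swinnerton-Dyer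
`P(x) ~ A (log x)^ρ` holds for some `A > 0` if and only if `ρ = r` and `P` does not grow fast on short
logarithmic scales,

  `P(y) ≤ (1 + ε) P(x)` for `x ≤ y ≤ x^(1+δ)`, `x` large (`δ = δ(ε)`),

equivalently, the sums `∑_{x < p ≤ y} a_p / p` are `≥ -ε` for these `x`, `y`.  These are one-sided conditions in
which neither `r` nor `A` occurs.  If `F` has no real zeros `s > 1`, the opposite one-sided conditions can be
used.  In the same way `c (log x)^ρ ≤ P(x) ≤ C (log x)^ρ` holds if and only if `ρ = r` and `P(y) ≤ K P(x)` for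
`x ≤ y ≤ x²`, equivalently `∑_{x < p ≤ y} a_p / p ≥ -K` for these `x`, `y`; each of these conditions implies that
`F` has no zeros with `Re s > 1`.
-/

set_option autoImplicit false

namespace Pool.Agent.Results.MP_3283e1_nt.OneSidedSlowVariation

open Filter Topology Classical CongruenceSubgroup UpperHalfPlane
open scoped MatrixGroups

/-- `N_p`: the number of points of `y² = x³ + a x + b` modulo `p`, with the point at infinity. -/
noncomputable def numPoints (a b : ℤ) (p : ℕ) : ℕ :=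
  Nat.card {q : ZMod p × ZMod p // q.2 ^ 2 = q.1 ^ 3 + (a : ZMod p) * q.1 + (b : ZMod p)} + 1

/-- `p` is a prime that does not divide `2 Δ`, where `Δ = -4 a³ - 27 b²`. -/
def Good (a b : ℤ) (p : ℕ) : Prop :=
  p.Prime ∧ ¬ ((p : ℤ) ∣ 2 * (-4 * a ^ 3 - 27 * b ^ 2))

/-- The original Birch and Swinnerton-Dyer product `P(x) = ∏_{p ≤ x, p ∤ 2Δ} N_p / p`. -/
noncomputable def P (a b : ℤ) (x : ℝ) : ℝ :=
  ∏ p ∈ (Finset.range (⌊x⌋₊ + 1)).filter (Good a b), ((numPoints a b p : ℝ) / p)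

/-- `∑_{x < p ≤ y, p ∤ 2Δ} a_p / p`, `a_p = p + 1 - N_p` -/
noncomputable def traceSum (a b : ℤ) (x y : ℝ) : ℝ :=
  ∑ p ∈ (Finset.Ioc ⌊x⌋₊ ⌊y⌋₊).filter (Good a b), (((p : ℝ) + 1 - numPoints a b p) / p)

/-- `F` is an entire function which for `Re s > 3/2` is the incomplete `L`-series
`∏_{p ∤ 2Δ} (1 - a_p p^{-s} + p^{1-2s})⁻¹`, `a_p = p + 1 - N_p`, of `y² = x³ + a x + b`. -/
def IsLSeries (a b : ℤ) (F : ℂ → ℂ) : Prop :=
  Differentiable ℂ F ∧ ∀ s : ℂ, (3 : ℝ) / 2 < s.re →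
    HasProd (fun p : ℕ => if Good a b p then
      (1 - ((p : ℂ) + 1 - (numPoints a b p : ℂ)) * (p : ℂ) ^ (-s) + (p : ℂ) ^ (1 - 2 * s))⁻¹ else 1)
      (F s)

/-- The `n`-th Fourier coefficient of `f`. -/
noncomputable def coef {N : ℕ} (f : CuspForm (Gamma0 N : Subgroup (GL (Fin 2) ℝ)) 2) (n : ℕ) : ℂ :=
  (qExpansion 1 f).coeff n

/-- `f ∈ S_2(Γ₀(N))` is the newform of the elliptic curve `E : y² = x³ + a x + b` of conductor `N`: the
Fourier coefficients `c(n)` of `f` are real with `c(1) = 1`, they satisfy the Hecke relations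
`c(mn) = c(m) c(n)` for coprime `m`, `n` and `c(p^(j+2)) = c(p) c(p^(j+1)) - p c(p^j)` (without the last
term if `p ∣ N`), `c(p) = a_p = p + 1 - N_p` for all primes `p ∤ 2Δ`, `|c(p)| ≤ 2 √p` for all
`p ∤ N` (Hasse) and `c(p) = 0, 1, -1` for `p ∣ N`. -/
structure IsNewformOf (a b : ℤ) (N : ℕ) (f : CuspForm (Gamma0 N : Subgroup (GL (Fin 2) ℝ)) 2) :
    Prop where
  one : coef f 1 = 1
  real : ∀ n, (coef f n).im = 0
  mul : ∀ m n : ℕ, Nat.Coprime m n → coef f (m * n) = coef f m * coef f n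
  pow : ∀ p j : ℕ, p.Prime → coef f (p ^ (j + 2)) = coef f p * coef f (p ^ (j + 1)) -
      (if p ∣ N then 0 else (p : ℂ) * coef f (p ^ j))
  points : ∀ p : ℕ, Good a b p → coef f p = (p : ℂ) + 1 - (numPoints a b p : ℂ)
  good : ∀ p : ℕ, p.Prime → ¬ p ∣ N → ‖coef f p‖ ≤ 2 * Real.sqrt p
  bad : ∀ p : ℕ, p.Prime → p ∣ N → coef f p = 0 ∨ coef f p = 1 ∨ coef f p = -1

/-- Goldfeld's constant `T = √2 e^{rγ} r! / |F^{(r)}(1)|` -/
noncomputable def T (F : ℂ → ℂ) (r : ℕ) : ℝ :=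
  √2 * Real.exp (r * Real.eulerMascheroniConstant) * (r.factorial : ℝ) / ‖iteratedDeriv r F 1‖

/-- For every `ε > 0` there is a `δ > 0` such that for all large `x` the relation `R ε x y` holds for all
`y ∈ [x, x^(1+δ)]`. -/
def ShortScales (R : ℝ → ℝ → ℝ → Prop) : Prop :=
  ∀ ε : ℝ, 0 < ε → ∃ δ : ℝ, 0 < δ ∧ ∀ᶠ x : ℝ in atTop, ∀ y, x ≤ y → y ≤ x ^ (1 + δ) → R ε x y

/-- There is a `K` such that for all large `x` the relation `R K x y` holds for all `y ∈ [x, x²]`. -/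
def Doubling (R : ℝ → ℝ → ℝ → Prop) : Prop :=
  ∃ K : ℝ, ∀ᶠ x : ℝ in atTop, ∀ y, x ≤ y → y ≤ x ^ 2 → R K x y

/-- `F` has no real zeros to the right of `1`. -/
def NoRealZeros (F : ℂ → ℂ) : Prop := ∀ s : ℝ, 1 < s → F s ≠ 0

/-! ### Translation to the definitions of the imported files -/

variable {a b : ℤ}

theorem P_eq : P a b = Pool.Agent.W263.BSD.bsdProduct a b := by
  funext x
  unfold P Pool.Agent.W263.BSD.bsdProduct numPoints Pool.Agent.W263.BSD.pointCount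
  refine Finset.prod_congr rfl fun p _ => ?_
  push_cast
  rfl

theorem numPoints_sub (p : ℕ) : (p : ℂ) + 1 - (numPoints a b p : ℂ) =
    (p : ℂ) - (Pool.Agent.W263.BSD.pointCount a b p : ℂ) := by
  unfold numPoints Pool.Agent.W263.BSD.pointCount
  push_cast
  ring

theorem numPoints_subR (p : ℕ) : (p : ℝ) + 1 - (numPoints a b p : ℝ) =
    (p : ℝ) - (Pool.Agent.W263.BSD.pointCount a b p : ℝ) := by
  unfold numPoints Pool.Agent.W263.BSD.pointCount
  push_cast
  ring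

theorem traceSum_eq : traceSum a b = Pool.Agent.N586.BP.tr a b := by
  funext x y
  unfold traceSum Pool.Agent.N586.BP.tr
  simp only [numPoints_subR]
  rfl

theorem isLSeries {F : ℂ → ℂ} (hF : IsLSeries a b F) :
    Pool.Agent.W263.BSD.IsLSeries a b F := by
  refine ⟨hF.1, fun s hs => ?_⟩
  have h := hF.2 s hs
  simp only [numPoints_sub] at h
  exact h

theorem hecke {N : ℕ} {f : CuspForm (Gamma0 N : Subgroup (GL (Fin 2) ℝ)) 2}
    (hf : IsNewformOf a b N f) : Pool.Agent.TH941.Hecke f where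
  one := hf.one
  real := hf.real
  mul := hf.mul
  pow := hf.pow
  good := hf.good
  bad := fun p hp h => by
    rcases hf.bad p hp h with h1 | h1 | h1
    · have h2 : ‖coef f p‖ ≤ 1 := by rw [h1]; simp
      exact h2
    · have h2 : ‖coef f p‖ ≤ 1 := by rw [h1]; simp
      exact h2
    · have h2 : ‖coef f p‖ ≤ 1 := by rw [h1]; simp
      exact h2

theorem hasse {N : ℕ} [NeZero N] {f : CuspForm (Gamma0 N : Subgroup (GL (Fin 2) ℝ)) 2}
    (hΔ : 4 * a ^ 3 + 27 * b ^ 2 ≠ 0) (hf : IsNewformOf a b N f) : Pool.Agent.N586.BP.Hasse a b := by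
  obtain ⟨D, hD⟩ := Pool.Agent.W263.BSD.good_of_large hΔ
  refine ⟨max D N, fun p hp h => ?_⟩
  have h1 : Good a b p := hD p hp (lt_of_le_of_lt (le_max_left _ _) h)
  have h2 : ¬ p ∣ N := fun h3 => by
    have := Nat.le_of_dvd (Nat.pos_of_ne_zero (NeZero.ne N)) h3
    have := le_max_right D N
    omega
  have h3 := hf.good p hp h2
  rw [hf.points p h1, numPoints_sub] at h3
  have h4 : ((p : ℂ) - (Pool.Agent.W263.BSD.pointCount a b p : ℂ)) =
      (((p : ℝ) - (Pool.Agent.W263.BSD.pointCount a b p : ℝ) : ℝ) : ℂ) := by push_cast; rfl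
  rw [h4, Complex.norm_real, Real.norm_eq_abs] at h3
  exact h3

theorem T_eq (F : ℂ → ℂ) (r : ℕ) : T F r = Pool.Agent.N586.BP.TT F r := by
  unfold T Pool.Agent.N586.BP.TT Pool.Agent.W263.BSD.leadAbs
  rw [div_div_eq_mul_div, mul_div_assoc', ← mul_assoc]

/-- **One-sided criteria for the original conjecture of Birch and Swinnerton-Dyer.** -/
theorem result (a b : ℤ) (hΔ : 4 * a ^ 3 + 27 * b ^ 2 ≠ 0) (F : ℂ → ℂ) (hF : IsLSeries a b F)
    (N : ℕ) [NeZero N] (f : CuspForm (Gamma0 N : Subgroup (GL (Fin 2) ℝ)) 2)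
    (hf : IsNewformOf a b N f) :
    ∃ r : ℕ, analyticOrderAt F 1 = r ∧ 0 < T F r ∧
      (∀ ρ : ℝ, List.TFAE [
        ∃ A : ℝ, 0 < A ∧ Tendsto (fun x : ℝ => P a b x / Real.log x ^ ρ) atTop (𝓝 A),
        ρ = r ∧ Tendsto (fun x : ℝ => P a b x / Real.log x ^ ρ) atTop (𝓝 (T F r)),
        ρ = r ∧ ShortScales (fun ε x y => P a b y ≤ (1 + ε) * P a b x),
        ρ = r ∧ NoRealZeros F ∧ ShortScales (fun ε x y => P a b x ≤ (1 + ε) * P a b y),
        ρ = r ∧ ShortScales (fun ε x y => -ε ≤ traceSum a b x y),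
        ρ = r ∧ NoRealZeros F ∧ ShortScales (fun ε x y => traceSum a b x y ≤ ε)]) ∧
      (∀ ρ : ℝ, List.TFAE [
        ∃ c C : ℝ, 0 < c ∧ ∀ᶠ x : ℝ in atTop, c * Real.log x ^ ρ ≤ P a b x ∧
          P a b x ≤ C * Real.log x ^ ρ,
        ρ = r ∧ Doubling (fun K x y => P a b y ≤ K * P a b x),
        ρ = r ∧ NoRealZeros F ∧ Doubling (fun K x y => P a b x ≤ K * P a b y),
        ρ = r ∧ Doubling (fun K x y => -K ≤ traceSum a b x y),
        ρ = r ∧ NoRealZeros F ∧ Doubling (fun K x y => traceSum a b x y ≤ K)]) ∧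
      (Doubling (fun K x y => P a b y ≤ K * P a b x) → ∀ s : ℂ, 1 < s.re → F s ≠ 0) := by
  have hF' := isLSeries hF
  obtain ⟨r, hr⟩ := Pool.Agent.W263.BSD.order_finite hF'
  have hH := hasse hΔ hf
  have hrs : Tendsto (Pool.Agent.W263.BSD.rsSum a b) atTop (𝓝 0) :=
    (hecke hf).rsSum_tendsto hΔ fun p hp => (hf.points p hp).trans (numPoints_sub p)
  have hT : 0 < T F r := by
    obtain ⟨h1, -⟩ := Pool.Agent.W263.BSD.lead_limit hF'.1 hr
    rw [T_eq]
    unfold Pool.Agent.N586.BP.TT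
    positivity
  refine ⟨r, hr, hT, fun ρ => ?_, fun ρ => ?_, fun h s hs => ?_⟩
  · rw [P_eq, traceSum_eq, T_eq]
    exact Pool.Agent.N586.BP.main_asy hΔ hrs hH hF' hr ρ
  · rw [P_eq, traceSum_eq]
    exact Pool.Agent.N586.BP.main_ord hH hF' hr ρ
  · rw [P_eq] at h
    exact Pool.Agent.N586.BP.zero_free hF' hr h hs

end Pool.Agent.Results.MP_3283e1_nt.OneSidedSlowVariation
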