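import Pool.Agent.N384.MQ.Tws
import Pool.Agent.N384.MQ.Gen

/-!
# The product of Birch and Swinnerton-Dyer for the quadratic twists of any curve by members of families of residues

From Mathlib: `ZMod.stdAddChar`: the additive character `j ↦ exp (2 π i j / q)` of the integers modulo `q`; `ZMod.val`: the
least residue. From `Pool.Agent.W263.BSD` (file `Pool/Agent/W263/BSD/Defs.lean`): `pointCount a b p` is the number of the
solutions of `y² = x³ + a x + b` modulo `p`, `GoodPrime a b p`: `p` is a prime which does not divide `2 (4 a³ + 27 b²)`.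

(By the theorem of Rankin and Selberg the `centre` below is `(log log x) / 2 + O(1)` for a fixed curve; this is not used and not
proved here.)

Method: a family of residues modulo `q` with small Fourier coefficients has small exponential sums at all real
frequencies which are not close to integers. The passage from such exponential sums to sums over primes of functions of
residues, for almost all members, is from the starting files (`Pool.Agent.R459.Bsd`, `H491R4.TW`). Examples: a lemma of Ajtai, Iwaniec,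
Komlos, Pintz and Szemeredi on quotients by small primes, the Stepanov type lemma of Heath-Brown and Konyagin for
subgroups (library `H435R3.HBK`, `N825.FC`), and Weyl sums without losses (library `H373R2.NB`).
-/

set_option autoImplicit false

namespace Pool.Agent.Results.MP_3283e1_nt.ResidueFamilies

open Finset Filter
open Pool.Agent.W263.BSD (GoodPrime pointCount)
open Pool.Agent.R459.Eq (pri mem_pri)
open Pool.Agent.R459.Bsd (GG TT)
open Pool.Agent.H491R4.TW (HH cc)
open Pool.Agent.N384.MQ (TW)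

/-- The Fourier coefficients of the residues `y i`, `i ∈ s`, modulo `q` at the nonzero frequencies are at most
`η` times the number of the residues: `|∑ i ∈ s, e(h y_i / q)| ≤ η |s|` for all `h ≠ 0` modulo `q`. -/
def Flat {ι : Type} (q : ℕ) [NeZero q] (η : ℝ) (s : Finset ι) (y : ι → ZMod q) : Prop :=
  ∀ h : ZMod q, h ≠ 0 → ‖∑ i ∈ s, (ZMod.stdAddChar (h * y i) : ℂ)‖ ≤ η * s.card

open Classical in
/-- Almost all the integers `n = c₀ + κ y_i`, `i ∈ s` (with the least residues `0 ≤ y_i < q`), up to a proportion of at most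
`τ` of the `i`, have the property `P`. -/
def Almost {ι : Type} {q : ℕ} (s : Finset ι) (y : ι → ZMod q) (κ c₀ : ℤ) (τ : ℝ) (P : ℤ → Prop) : Prop :=
  ((s.filter (fun i => ¬ P (c₀ + κ * ((y i).val : ℕ)))).card : ℝ) ≤ τ * s.card

lemma almost_of {ι : Type} {q : ℕ} {s : Finset ι} {y : ι → ZMod q} {κ c₀ : ℤ} {τ : ℝ} {P Q : ℤ → Prop}
    (h : Pool.Agent.N384.MQ.AlmostF s y κ c₀ τ P) (hPQ : ∀ n, P n → Q n) : Almost s y κ c₀ τ Q := by
  have h1 := Pool.Agent.N384.MQ.AlmostF.mono h hPQ
  unfold Pool.Agent.N384.MQ.AlmostF at h1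
  unfold Almost
  convert h1

lemma fam_of {ι : Type} {q : ℕ} [NeZero q] {s : Finset ι} {y : ι → ZMod q} {Z : ℝ} (hZ : 0 < Z) (hZq : Z ≤ q)
    (h : Flat q (1 / (Z * (42 + 3 * Real.log q))) s y) :
    Pool.Agent.N384.MQ.Fam q s y (Z * (42 + 3 * Real.log q)) Z :=
  ⟨mul_pos hZ (by have := Real.log_natCast_nonneg q; linarith), h, hZq, le_rfl⟩

open Classical in
/-- The product of `(N_p + 1) / p` over the primes `p ≤ x` of good reduction of `y² = x³ + a x + b`; `N_p + 1` is the number of
the points over `F_p`, including the point at infinity. -/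
noncomputable def product (a b : ℤ) (x : ℕ) : ℝ :=
  ∏ p ∈ (range (x + 1)).filter (fun p => GoodPrime a b p), ((pointCount a b p : ℝ) + 1) / p

open Classical in
/-- The sum of `1 / p - a_p² / (2 p²)`, `a_p = p - N_p`, over the primes `p ≤ x` of good reduction of `y² = x³ + a x + b`. -/
noncomputable def centre (a b : ℤ) (x : ℕ) : ℝ :=
  ∑ p ∈ (range (x + 1)).filter (fun p => GoodPrime a b p), (1 / (p : ℝ) - ((p : ℝ) - pointCount a b p) ^ 2 / (2 * (p : ℝ) ^ 2))

lemma product_eq (a b D : ℤ) (x : ℕ) : Real.log (product (a * D ^ 2) (b * D ^ 3) x) = ∑ p ∈ pri x, HH a b p D := by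
  classical
  unfold product
  rw [Real.log_prod]
  · have e : ∑ p ∈ pri x, HH a b p D =
        ∑ p ∈ (range (x + 1)).filter (fun p => GoodPrime (a * D ^ 2) (b * D ^ 3) p), HH a b p D := by
      symm
      apply sum_subset
      · intro p hp
        rw [mem_filter, mem_range] at hp
        rw [mem_pri]
        exact ⟨by omega, hp.2.1⟩
      · intro p hp hnp
        rw [mem_pri] at hp
        unfold HH GG
        rw [if_neg]
        intro hg
        apply hnp
        rw [mem_filter, mem_range]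
        exact ⟨by omega, hg⟩
    rw [e]
    apply sum_congr rfl
    intro p hp
    unfold HH GG
    rw [if_pos (mem_filter.1 hp).2]
  · intro p hp
    rw [mem_filter] at hp
    have : (0 : ℝ) < p := by exact_mod_cast hp.2.1.pos
    positivity

lemma centre_eq (a b : ℤ) (x : ℕ) : centre a b x = ∑ p ∈ pri x, cc a b p := by
  classical
  unfold centre
  have e : ∑ p ∈ pri x, cc a b p = ∑ p ∈ (range (x + 1)).filter (fun p => GoodPrime a b p), cc a b p := by
    symm
    apply sum_subset
    · intro p hp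
      rw [mem_filter, mem_range] at hp
      rw [mem_pri]
      exact ⟨by omega, hp.2.1⟩
    · intro p hp hnp
      rw [mem_pri] at hp
      unfold cc
      rw [if_neg]
      intro hg
      apply hnp
      rw [mem_filter, mem_range]
      exact ⟨by omega, hg⟩
  rw [e]
  apply sum_congr rfl
  intro p hp
  unfold cc
  rw [if_pos (mem_filter.1 hp).2]

open Classical in
/-- The sum of `a_p log p`, `a_p = p - N_p`, over the primes `p ≤ x` of good reduction of `y² = x³ + a x + b`. -/
noncomputable def traceSum (a b : ℤ) (x : ℕ) : ℝ :=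
  ∑ p ∈ (range (x + 1)).filter (fun p => GoodPrime a b p), ((p : ℝ) - pointCount a b p) * Real.log p

lemma traceSum_eq (a b D : ℤ) (x : ℕ) : traceSum (a * D ^ 2) (b * D ^ 3) x = ∑ p ∈ pri x, TW a b p D * Real.log p := by
  classical
  unfold traceSum
  have e : ∑ p ∈ pri x, TW a b p D * Real.log p = ∑ p ∈ (range (x + 1)).filter (fun p => GoodPrime (a * D ^ 2) (b * D ^ 3) p), TW a b p D * Real.log p := by
    symm
    apply sum_subset
    · intro p hp
      rw [mem_filter, mem_range] at hp
      rw [mem_pri]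
      exact ⟨by omega, hp.2.1⟩
    · intro p hp hnp
      rw [mem_pri] at hp
      unfold TW TT
      rw [if_neg, zero_mul]
      intro hg
      apply hnp
      rw [mem_filter, mem_range]
      exact ⟨by omega, hg⟩
  rw [e]
  apply sum_congr rfl
  intro p hp
  unfold TW TT
  rw [if_pos (mem_filter.1 hp).2]

/-- **(1)** There is `W` such that for all `κ ≠ 0` the following two assertions hold for all finite families `y i`, `i ∈ s`, of
residues modulo any `q` whose Fourier coefficients at the nonzero frequencies are at most `|s| / (Z (42 + 3 log q))`, where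
`0 < Z ≤ q`. Let `E_D : y² = x³ + a D² x + b D³` be the quadratic twist by `D` of the curve `E : y² = x³ + a x + b`.

First, there is `C` (depending on `κ` only) such that for all such families, ALL integers `a`, `b`, `c₀`, all `x ≥ 16` with
`x ^ W ≤ Z` and all `l > 0`: almost all the integers `D = c₀ + κ y_i`, `i ∈ s`, up to a proportion of at most `C / l²`, satisfy
`|log P_D(x) - centre a b x| ≤ l (log log x) ^ (1 / 2)`, where `P_D(x)` is the product of `#E_D(F_p) / p` over the primes `p ≤ x`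
of good reduction of `E_D`.

Second, let `0 < δ ≤ 1 / 2`. For all sufficiently large `X`, all such families and ALL integers `a`, `b`, `c₀`: almost all the
integers `D = c₀ + κ y_i`, `i ∈ s`, up to a proportion of at most `X ^ (- δ)`, have the property that the sum of
`a_p(E_D) log p` over the primes `p ≤ x` of good reduction is at most `x ^ (1 + δ)` in absolute value for ALL `x ≥ X` with
`x ^ W ≤ Z`.

**(2)**, **(3)** Examples. All the Fourier coefficients at nonzero frequencies are at most `|s| / K` for the following families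
of residues modulo primes `p` (all large primes in (2)), for ALL `K ≥ 1`:
* the quotients `j / r` of the integers `0 ≤ j < S` by the primes `r ≤ R`, if `K log ^ 4 p ≤ R < p` and `R ^ 2 ≤ S`; thus
  (1) with `Z = log ^ B p` applies to such explicit sets with only `log ^ (3 B + 20) p` members;
* the cosets of all subgroups of the multiplicative group of an order of at least `5 p ^ (3/8) K ^ 3`;
* the residues `a b + g(a) + k(b)`, `a ∈ A`, `b ∈ B`, for arbitrary sets with `|A| |B| ≥ p K ^ 2` and arbitrary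
  functions `g` and `k`;
* the values `f(n)`, `0 ≤ n < x`, of all integer polynomials of degree `d` whose leading coefficient is not divisible by
  `p`, if `p ≥ C K ^ C` and `x ^ d ≥ C K ^ C p`, where `C` depends on `d`.
In the last three examples `K`, and thus `Z`, can be a power of `p`. -/
theorem result :
    (∃ W : ℕ, 1 ≤ W ∧ ∀ κ : ℤ, κ ≠ 0 →
      (∃ C : ℝ, 0 < C ∧
        ∀ (ι : Type) (q : ℕ) [NeZero q] (s : Finset ι) (y : ι → ZMod q) (Z : ℝ), 0 < Z → Z ≤ q →
        Flat q (1 / (Z * (42 + 3 * Real.log q))) s y → ∀ (a b c₀ : ℤ) (x : ℕ), 16 ≤ x → (x : ℝ) ^ W ≤ Z →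
        ∀ l : ℝ, 0 < l → Almost s y κ c₀ (C / l ^ 2) (fun D =>
          |Real.log (product (a * D ^ 2) (b * D ^ 3) x) - centre a b x| ≤ l * √(Real.log (Real.log x)))) ∧
      (∀ δ : ℝ, 0 < δ → δ ≤ 1 / 2 → ∃ X₀ : ℕ, ∀ X : ℕ, X₀ ≤ X →
        ∀ (ι : Type) (q : ℕ) [NeZero q] (s : Finset ι) (y : ι → ZMod q) (Z : ℝ), 0 < Z → Z ≤ q →
        Flat q (1 / (Z * (42 + 3 * Real.log q))) s y → ∀ a b c₀ : ℤ,
        Almost s y κ c₀ ((X : ℝ) ^ (-δ)) (fun D => ∀ x : ℕ, X ≤ x → (x : ℝ) ^ W ≤ Z →
          |traceSum (a * D ^ 2) (b * D ^ 3) x| ≤ (x : ℝ) ^ (1 + δ)))) ∧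
    (∃ P₀ : ℕ, ∀ p : ℕ, P₀ ≤ p → ∀ [Fact p.Prime] (K : ℝ), 1 ≤ K →
      (∀ R S : ℕ, K * Real.log p ^ 4 ≤ R → R < p → R ^ 2 ≤ S →
        Flat p (1 / K) (((Icc 1 R).filter Nat.Prime) ×ˢ range S)
          (fun z => ((z.2 : ℕ) : ZMod p) * ((z.1 : ℕ) : ZMod p)⁻¹)) ∧
      (∀ (H : Subgroup (ZMod p)ˣ) (s : Finset (ZMod p)ˣ), (∀ u, u ∈ s ↔ u ∈ H) →
        5 * (p : ℝ) ^ (3 / 8 : ℝ) * K ^ 3 ≤ s.card → ∀ x : ZMod p, x ≠ 0 → Flat p (1 / K) s (fun u => x * (u : ZMod p))) ∧
      (∀ (A B : Finset (ZMod p)) (g k : ZMod p → ZMod p), (p : ℝ) * K ^ 2 ≤ A.card * B.card →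
        Flat p (1 / K) (A ×ˢ B) (fun z => z.1 * z.2 + g z.1 + k z.2))) ∧
    (∀ d : ℕ, 1 ≤ d → ∃ C : ℕ, ∀ p : ℕ, ∀ [Fact p.Prime] (f : Polynomial ℤ), f.natDegree = d →
      ¬ (p : ℤ) ∣ f.leadingCoeff → ∀ K : ℝ, 1 ≤ K → C * K ^ C ≤ p → ∀ x : ℕ, C * K ^ C * p ≤ (x : ℝ) ^ d →
      Flat p (1 / K) (range x) (fun n => ((f.eval (n : ℤ) : ℤ) : ZMod p))) := by
  refine ⟨?_, ?_, fun d hd => ?_⟩
  · obtain ⟨W₁, hW₁, K₁⟩ := Pool.Agent.N384.MQ.mq_tw
    obtain ⟨W₂, hW₂, K₂⟩ := Pool.Agent.N384.MQ.mq_gtr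
    refine ⟨W₁ + W₂, by omega, fun κ hκ => ⟨?_, fun δ hδ hδ1 => ?_⟩⟩
    · obtain ⟨C, hC, J⟩ := K₁ κ hκ
      refine ⟨C, hC, fun ι q _ s y Z hZ hZq hfl a b c₀ x hx hxW l hl => ?_⟩
      have hx1 : (1 : ℝ) ≤ x := by exact_mod_cast (by omega : 1 ≤ x)
      refine almost_of (J ι q s y _ Z (fam_of hZ hZq hfl) c₀ a b x hx ((pow_le_pow_right₀ hx1 (by omega)).trans hxW) l hl) ?_
      intro D hD
      rw [product_eq, centre_eq]
      exact hD
    · obtain ⟨X₀, J⟩ := K₂ κ hκ δ hδ hδ1
      refine ⟨X₀ + 1, fun X hX ι q _ s y Z hZ hZq hfl a b c₀ => ?_⟩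
      refine almost_of (J X (by omega) ι q s y _ Z (fam_of hZ hZq hfl) c₀ _ (Pool.Agent.N384.MQ.TW_sys a b)) ?_
      intro D hD x hXx hxW
      have hx1 : (1 : ℝ) ≤ x := by exact_mod_cast (by omega : 1 ≤ x)
      rw [traceSum_eq]
      exact hD x hXx ((pow_le_pow_right₀ hx1 (by omega)).trans hxW)
  · obtain ⟨P₀, h0⟩ := Pool.Agent.N384.MQ.flatK_quot
    exact ⟨P₀, fun p hp _ K hK => ⟨fun R S => h0 p hp K hK R S,
      fun H s hs hc x hx => Pool.Agent.N384.MQ.flatK_coset p H s hs K hK hc x hx,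
      fun A B g k hAB => Pool.Agent.N384.MQ.flatK_prod p A B g k K hK hAB⟩⟩
  · exact Pool.Agent.N384.MQ.flatK_poly d hd

end Pool.Agent.Results.MP_3283e1_nt.ResidueFamilies
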